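import Pool.Agent.L5helper31.TG.Defs
import Pool.Agent.TH984.GB.Simplex

/-!
# The example `P^1 × P^n`: volume (TG7)
-/

set_option autoImplicit false

open MeasureTheory Finset

namespace Pool.Agent.L5helper31.TG

theorem dot_single {n : ℕ} (i : Fin n) (x : Fin n → ℝ) :
    dot (Pi.single i 1 : Fin n → ℤ) x = x i := by
  unfold dot
  rw [Finset.sum_eq_single i]
  · simp
  · intro j _ hj
    simp [hj]
  · intro h
    exact absurd (Finset.mem_univ i) h

theorem dot_neg {n : ℕ} (l : Fin n → ℤ) (x : Fin n → ℝ) : dot (-l) x = -dot l x := by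
  unfold dot
  rw [← Finset.sum_neg_distrib]
  refine Finset.sum_congr rfl fun i _ => ?_
  simp

theorem dot_sum {n : ℕ} {ι : Type} (s : Finset ι) (l : ι → Fin n → ℤ) (x : Fin n → ℝ) :
    dot (∑ a ∈ s, l a) x = ∑ a ∈ s, dot (l a) x := by
  unfold dot
  rw [Finset.sum_comm]
  refine Finset.sum_congr rfl fun i _ => ?_
  rw [Finset.sum_apply]
  push_cast
  rw [Finset.sum_mul]

theorem mem_exPolytope {n : ℕ} (x : Fin (n + 1) → ℝ) : x ∈ polytope (exL n) ↔
    (-1 ≤ x 0 ∧ x 0 ≤ 1) ∧ (∀ i : Fin n, -1 ≤ x i.succ) ∧ ∑ i : Fin n, x i.succ ≤ 1 := by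
  have h3 : dot (-∑ i : Fin n, (Pi.single i.succ 1 : Fin (n + 1) → ℤ)) x =
      -∑ i : Fin n, x i.succ := by
    rw [dot_neg, dot_sum]
    simp only [dot_single]
  constructor
  · intro h
    have a1 := h (Pi.single 0 1) (by simp [exL])
    have a2 := h (-Pi.single 0 1) (by simp [exL])
    have a3 := h (-∑ i : Fin n, Pi.single i.succ 1) (by simp [exL])
    rw [dot_single] at a1
    rw [dot_neg, dot_single] at a2
    rw [h3] at a3
    refine ⟨⟨a1, by linarith⟩, fun i => ?_, by linarith⟩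
    have a4 := h (Pi.single i.succ 1) (by simp [exL])
    rwa [dot_single] at a4
  · rintro ⟨⟨h1, h2⟩, h4, h5⟩ l hl
    simp only [exL, Finset.mem_union, Finset.mem_insert, Finset.mem_singleton,
      Finset.mem_image, Finset.mem_univ, true_and] at hl
    rcases hl with (rfl | rfl | rfl) | ⟨i, rfl⟩
    · rw [dot_single]; exact h1
    · rw [dot_neg, dot_single]; linarith
    · rw [h3]; linarith
    · rw [dot_single]; exact h4 i

theorem ex_bdd (n : ℕ) : Bornology.IsBounded (polytope (exL n)) := by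
  refine (Metric.isBounded_Icc (fun _ : Fin (n + 1) => (-1 : ℝ))
    (fun _ : Fin (n + 1) => (n : ℝ) + 1)).subset fun x hx => ?_
  rw [mem_exPolytope] at hx
  obtain ⟨⟨h1, h2⟩, h4, h5⟩ := hx
  have h6 : ∀ i : Fin n, x i.succ ≤ (n : ℝ) + 1 := fun i => by
    have h7 : x i.succ + 1 ≤ ∑ j : Fin n, (x j.succ + 1) :=
      Finset.single_le_sum (f := fun j : Fin n => x j.succ + 1)
        (fun j _ => by have := h4 j; linarith) (Finset.mem_univ i)
    rw [Finset.sum_add_distrib] at h7
    simp only [Finset.sum_const, Finset.card_univ, Fintype.card_fin, nsmul_eq_mul, mul_one] at h7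
    linarith
  refine ⟨fun i => ?_, fun i => ?_⟩
  · refine Fin.cases ?_ (fun j => ?_) i
    · exact h1
    · exact h4 j
  · refine Fin.cases ?_ (fun j => ?_) i
    · have : (0 : ℝ) ≤ n := Nat.cast_nonneg n
      change x 0 ≤ (n : ℝ) + 1
      linarith
    · exact h6 j

theorem zero_notMem (n : ℕ) (hn : 1 ≤ n) : (0 : Fin (n + 1) → ℤ) ∉ exL n := by
  intro h
  simp only [exL, Finset.mem_union, Finset.mem_insert, Finset.mem_singleton,
    Finset.mem_image, Finset.mem_univ, true_and] at h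
  rcases h with (h | h | h) | ⟨i, h⟩
  · have := congrFun h 0
    simp at this
  · have := congrFun h 0
    simp at this
  · have := congrFun h (⟨0, hn⟩ : Fin n).succ
    rw [Pi.neg_apply, Finset.sum_apply] at this
    rw [Finset.sum_eq_single (⟨0, hn⟩ : Fin n)] at this
    · simp at this
    · intro j _ hj
      rw [Pi.single_eq_of_ne]
      intro h'
      exact hj (Fin.succ_injective _ h').symm
    · intro h'
      exact absurd (Finset.mem_univ _) h'
  · have := congrFun h i.succ
    simp at this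

theorem vol_exPolytope (n : ℕ) : volume (polytope (exL n)) =
    ENNReal.ofReal (2 * (((n : ℝ) + 1) ^ n / n.factorial)) := by
  have hS : MeasurableSet {y : Fin n → ℝ | (∀ i, -1 ≤ y i) ∧ ∑ i, y i ≤ 1} := by
    have h : {y : Fin n → ℝ | (∀ i, -1 ≤ y i) ∧ ∑ i, y i ≤ 1} =
        (fun y => y + fun _ => (1 : ℝ)) ⁻¹' (Pool.Agent.TH984.GBS.Sc n ((n : ℝ) + 1)) := by
      ext y
      simp only [Pool.Agent.TH984.GBS.Sc, Set.mem_ofPred_eq, Set.mem_preimage, Pi.add_apply,
        Finset.sum_add_distrib, Finset.sum_const, Finset.card_univ, Fintype.card_fin,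
        nsmul_eq_mul, mul_one]
      constructor
      · rintro ⟨h1, h2⟩
        exact ⟨fun i => by linarith [h1 i], by linarith⟩
      · rintro ⟨h1, h2⟩
        exact ⟨fun i => by linarith [h1 i], by linarith⟩
    rw [h]
    exact (Pool.Agent.TH984.GBS.Sc_meas n _).preimage (by fun_prop)
  have hvS : volume {y : Fin n → ℝ | (∀ i, -1 ≤ y i) ∧ ∑ i, y i ≤ 1} =
      ENNReal.ofReal (((n : ℝ) + 1) ^ n / n.factorial) := by
    have h : {y : Fin n → ℝ | (∀ i, -1 ≤ y i) ∧ ∑ i, y i ≤ 1} =
        (fun y => y + fun _ => (1 : ℝ)) ⁻¹' (Pool.Agent.TH984.GBS.Sc n ((n : ℝ) + 1)) := by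
      ext y
      simp only [Pool.Agent.TH984.GBS.Sc, Set.mem_ofPred_eq, Set.mem_preimage, Pi.add_apply,
        Finset.sum_add_distrib, Finset.sum_const, Finset.card_univ, Fintype.card_fin,
        nsmul_eq_mul, mul_one]
      constructor
      · rintro ⟨h1, h2⟩
        exact ⟨fun i => by linarith [h1 i], by linarith⟩
      · rintro ⟨h1, h2⟩
        exact ⟨fun i => by linarith [h1 i], by linarith⟩
    rw [h, measure_preimage_add_right, Pool.Agent.TH984.GBS.vol_Sc n _ (by positivity)]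
  have hset : polytope (exL n) = (MeasurableEquiv.piFinSuccAbove (fun _ : Fin (n+1) => ℝ) 0) ⁻¹'
      (Set.Icc (-1 : ℝ) 1 ×ˢ {y : Fin n → ℝ | (∀ i, -1 ≤ y i) ∧ ∑ i, y i ≤ 1}) := by
    ext x
    rw [mem_exPolytope]
    simp [MeasurableEquiv.piFinSuccAbove, Fin.tail]
  rw [hset, (volume_preserving_piFinSuccAbove (fun _ : Fin (n + 1) => ℝ) 0).measure_preimage
    (measurableSet_Icc.prod hS).nullMeasurableSet, Measure.volume_eq_prod, Measure.prod_prod,
    hvS, Real.volume_Icc, ENNReal.ofReal_mul (by norm_num)]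
  congr 2
  norm_num

/-- TG7. The example: bounded, volume. -/
theorem ex_vol (n : ℕ) (hn : 1 ≤ n) : (0 : Fin (n + 1) → ℤ) ∉ exL n ∧
    Bornology.IsBounded (polytope (exL n)) ∧
    ((n + 1).factorial : ℝ) * volume.real (polytope (exL n)) = 2 * ((n : ℝ) + 1) ^ (n + 1) := by
  refine ⟨zero_notMem n hn, ex_bdd n, ?_⟩
  rw [measureReal_def, vol_exPolytope, ENNReal.toReal_ofReal (by positivity), Nat.factorial_succ]
  have : (n.factorial : ℝ) ≠ 0 := by positivity
  push_cast
  field_simp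
  ring

end Pool.Agent.L5helper31.TG
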