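import Pool.Agent.L5helper31.TG.Defs2
import Pool.Agent.L5helper26.TG.Bary
import Pool.Agent.L5helper76.TGExVol

/-!
# The polytopes of `P^n`: volume and barycentre (U3)
-/

set_option autoImplicit false

open MeasureTheory Finset

namespace Pool.Agent.L5helper31.TG

/-- the translated simplex -/
def sS (n : ℕ) : Set (Fin n → ℝ) := {y | (∀ i, -1 ≤ y i) ∧ ∑ i, y i ≤ 1}

theorem sS_eq (n : ℕ) : sS n =
    (fun y => y + fun _ => (1 : ℝ)) ⁻¹' (Pool.Agent.TH984.GBS.Sc n ((n : ℝ) + 1)) := by
  ext y
  simp only [sS, Pool.Agent.TH984.GBS.Sc, Set.mem_ofPred_eq, Set.mem_preimage, Pi.add_apply,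
    Finset.sum_add_distrib, Finset.sum_const, Finset.card_univ, Fintype.card_fin,
    nsmul_eq_mul, mul_one]
  constructor
  · rintro ⟨h1, h2⟩
    exact ⟨fun i => by linarith [h1 i], by linarith⟩
  · rintro ⟨h1, h2⟩
    exact ⟨fun i => by linarith [h1 i], by linarith⟩

theorem sS_vol (n : ℕ) : volume (sS n) = ENNReal.ofReal (((n : ℝ) + 1) ^ n / n.factorial) := by
  rw [sS_eq, measure_preimage_add_right, Pool.Agent.TH984.GBS.vol_Sc n _ (by positivity)]

theorem sS_closed (n : ℕ) : IsClosed (sS n) := by
  have h : sS n = (⋂ i, {y : Fin n → ℝ | -1 ≤ y i}) ∩ {y | ∑ i, y i ≤ 1} := by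
    ext y
    simp [sS]
  rw [h]
  refine (isClosed_iInter fun i => isClosed_le continuous_const (continuous_apply i)).inter ?_
  exact isClosed_le (by fun_prop) continuous_const

theorem sS_compact (n : ℕ) : IsCompact (sS n) := by
  refine Metric.isCompact_of_isClosed_isBounded (sS_closed n) ?_
  refine (Metric.isBounded_Icc (fun _ : Fin n => (-1 : ℝ)) (fun _ : Fin n => (n : ℝ))).subset
    fun y hy => ⟨fun i => hy.1 i, fun i => ?_⟩
  have h7 : y i + 1 ≤ ∑ j : Fin n, (y j + 1) :=
    Finset.single_le_sum (f := fun j : Fin n => y j + 1)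
      (fun j _ => by have := hy.1 j; linarith) (Finset.mem_univ i)
  rw [Finset.sum_add_distrib] at h7
  simp only [Finset.sum_const, Finset.card_univ, Fintype.card_fin, nsmul_eq_mul, mul_one] at h7
  have := hy.2
  change y i ≤ (n : ℝ)
  linarith

theorem sS_int (n : ℕ) (i : Fin n) : IntegrableOn (fun y : Fin n → ℝ => y i) (sS n) :=
  (continuous_apply i).continuousOn.integrableOn_compact (sS_compact n)

theorem sS_bary (n : ℕ) (j : Fin n) : ∫ y in sS n, y j = 0 := by
  have key : ∀ j : Fin n, ∫ x in sS n, x j = -∑ k : Fin n, ∫ x in sS n, x k := by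
    intro j
    let f : (Fin n → ℝ) →ₗ[ℝ] (Fin n → ℝ) :=
      LinearMap.pi (fun k => if k = j then -∑ l : Fin n, LinearMap.proj l
        else LinearMap.proj k)
    have hfj : ∀ x, f x j = -∑ l : Fin n, x l := fun x => by simp [f]
    have hfo : ∀ x k, k ≠ j → f x k = x k := fun x k hk => by simp [f, hk]
    have hsum : ∀ x, ∑ l : Fin n, f x l = -x j := by
      intro x
      rw [← Finset.add_sum_erase _ _ (mem_univ j), hfj,
        ← Finset.add_sum_erase _ (fun l : Fin n => x l) (mem_univ j)]
      have : ∑ l ∈ univ.erase j, f x l = ∑ l ∈ univ.erase j, x l :=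
        Finset.sum_congr rfl fun l hl => hfo x _ (Finset.mem_erase.mp hl).1
      rw [this]
      ring
    have h1 := int_involution f (fun x => by
      ext k
      by_cases hk : k = j
      · rw [hk, hfj, hsum, neg_neg]
      · rw [hfo _ _ hk, hfo _ _ hk]) (sS n) (fun x hx => by
        refine ⟨fun k => ?_, ?_⟩
        · by_cases hk : k = j
          · rw [hk, hfj]; linarith [hx.2]
          · rw [hfo x _ hk]; exact hx.1 k
        · rw [hsum]; linarith [hx.1 j]) (fun x => x j)
    rw [← h1]
    simp only [hfj]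
    rw [integral_neg]
    congr 1
    exact integral_finset_sum _ (fun k _ => sS_int n k)
  have hS : ∑ k : Fin n, ∫ x in sS n, x k = 0 := by
    have h2 : ∑ k : Fin n, ∫ x in sS n, x k =
        ∑ k : Fin n, -∑ k : Fin n, ∫ x in sS n, x k :=
      Finset.sum_congr rfl fun k _ => key k
    rw [Finset.sum_const, card_univ, Fintype.card_fin, nsmul_eq_mul] at h2
    have hn' : (0 : ℝ) ≤ n := Nat.cast_nonneg n
    have h3 : ((n : ℝ) + 1) * ∑ k : Fin n, ∫ x in sS n, x k = 0 := by
      linarith
    rcases mul_eq_zero.mp h3 with h | h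
    · linarith
    · exact h
  rw [key j, hS, neg_zero]

theorem mem_pnL {n : ℕ} (M : Fin n → (Fin n → ℤ)) (x : Fin n → ℝ) :
    x ∈ polytope (pnL M) ↔ (fun i => dot (M i) x) ∈ sS n := by
  have h3 : dot (-∑ i, M i) x = -∑ i : Fin n, dot (M i) x := by
    rw [dot_neg, dot_sum]
  constructor
  · intro h
    refine ⟨fun i => h (M i) ?_, ?_⟩
    · exact Finset.mem_insert_of_mem (Finset.mem_image_of_mem _ (mem_univ i))
    · have := h _ (Finset.mem_insert_self _ _)
      rw [h3] at this
      linarith
  · rintro ⟨h1, h2⟩ l hl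
    rcases Finset.mem_insert.mp hl with rfl | hl
    · rw [h3]; linarith
    · obtain ⟨i, _, rfl⟩ := Finset.mem_image.mp hl
      exact h1 i

/-- U3. All polytopes of `P^n`. -/
theorem pn_all {n : ℕ} (hn : 1 ≤ n) (M : Fin n → (Fin n → ℤ)) (hd : |(Matrix.of M).det| = 1) :
    (0 : Fin n → ℤ) ∉ pnL M ∧ Bornology.IsBounded (polytope (pnL M)) ∧
    (∀ i, ∫ x in polytope (pnL M), x i = 0) ∧
    (n.factorial : ℝ) * volume.real (polytope (pnL M)) = ((n : ℝ) + 1) ^ n := by
  have hd0 : (Matrix.of M).det ≠ 0 := by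
    intro h
    rw [h, abs_zero] at hd
    exact zero_ne_one hd
  set B : Matrix (Fin n) (Fin n) ℝ := (Matrix.of M).map (Int.castRingHom ℝ) with hB
  have hdet : B.det = ((Matrix.of M).det : ℝ) := by
    rw [hB, ← RingHom.mapMatrix_apply, ← RingHom.map_det]
    rfl
  have hdetB : |B.det| = 1 := by
    rw [hdet, ← Int.cast_abs, hd]
    simp
  have hdetB0 : B.det ≠ 0 := by
    rw [hdet]
    exact_mod_cast hd0
  set f : (Fin n → ℝ) →ₗ[ℝ] (Fin n → ℝ) := Matrix.toLin' B with hf
  have hfapp : ∀ x, f x = fun i => dot (M i) x := by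
    intro x
    ext i
    simp only [hf, Matrix.toLin'_apply, Matrix.mulVec, dotProduct,
      dot, hB, Matrix.map_apply, Matrix.of_apply]
    rfl
  have hfdet : LinearMap.det f = B.det := LinearMap.det_toLin' B
  have hne : LinearMap.det f ≠ 0 := by rw [hfdet]; exact hdetB0
  set e : (Fin n → ℝ) ≃L[ℝ] (Fin n → ℝ) :=
    (LinearMap.equivOfDetNeZero f hne).toContinuousLinearEquiv with he
  have hea : ∀ x, e x = f x := fun x => rfl
  have hmp : MeasurePreserving e (volume : Measure (Fin n → ℝ)) volume := by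
    refine ⟨e.continuous.measurable, ?_⟩
    have h := Real.map_linearMap_volume_pi_eq_smul_volume_pi hne
    rw [abs_inv, hfdet, hdetB] at h
    simp only [inv_one, ENNReal.ofReal_one, one_smul] at h
    exact h
  have hemb : MeasurableEmbedding e := e.toHomeomorph.measurableEmbedding
  have hset : polytope (pnL M) = e ⁻¹' sS n := by
    ext x
    rw [mem_pnL, Set.mem_preimage, hea, hfapp]
  have hcomp : IsCompact (polytope (pnL M)) := by
    rw [hset]
    exact (e.toHomeomorph.isCompact_preimage).2 (sS_compact n)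
  refine ⟨?_, hcomp.isBounded, fun i => ?_, ?_⟩
  · intro h
    rcases Finset.mem_insert.mp h with h | h
    · refine hd0 (Matrix.exists_vecMul_eq_zero_iff.1 ⟨fun _ => 1, ?_, ?_⟩)
      · intro h'
        have := congrFun h' ⟨0, hn⟩
        simp at this
      · ext j
        have := congrFun h j
        rw [Pi.neg_apply, Finset.sum_apply, Pi.zero_apply] at this
        simp only [Matrix.vecMul, dotProduct, Matrix.of_apply, one_mul, Pi.zero_apply]
        linarith
    · obtain ⟨i, _, hi⟩ := Finset.mem_image.mp h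
      refine hd0 (Matrix.det_eq_zero_of_row_eq_zero i fun j => ?_)
      rw [Matrix.of_apply, hi]
      rfl
  · have h1 : ∀ k, ∫ x in polytope (pnL M), f x k = 0 := by
      intro k
      have := hmp.setIntegral_preimage_emb hemb (fun y => y k) (sS n)
      rw [sS_bary, ← hset] at this
      exact this
    have h2 : ∀ x : Fin n → ℝ, x i = ∑ k, B⁻¹ i k * f x k := by
      intro x
      have h3 : Matrix.mulVec B⁻¹ (Matrix.mulVec B x) = x := by
        rw [Matrix.mulVec_mulVec, Matrix.nonsing_inv_mul B (isUnit_iff_ne_zero.2 hdetB0),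
          Matrix.one_mulVec]
      have h4 := congrFun h3 i
      rw [← h4]
      simp [Matrix.mulVec, dotProduct, hf]
    simp_rw [h2]
    rw [integral_finset_sum]
    · refine Finset.sum_eq_zero fun k _ => ?_
      rw [integral_const_mul, h1, mul_zero]
    · intro k _
      refine Integrable.const_mul ?_ _
      have hc : Continuous fun x => f x k :=
        (continuous_apply k).comp (LinearMap.continuous_of_finiteDimensional f)
      exact hc.continuousOn.integrableOn_compact hcomp
  · rw [hset, measureReal_def, hmp.measure_preimage (sS_closed n).measurableSet.nullMeasurableSet,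
      sS_vol, ENNReal.toReal_ofReal (by positivity)]
    have : (n.factorial : ℝ) ≠ 0 := by positivity
    field_simp

end Pool.Agent.L5helper31.TG
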