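import Pool.Agent.L5helper13.TQ.Defs

/-!
# TQ4 (for helper13): averaging a quadratic cocycle
-/

set_option autoImplicit false

namespace Pool.Agent.L5helper13.TQ

/-- TQ4 -/
theorem abstract_main (k : Type) [Field k] [CharZero k] (V : Type) [AddCommGroup V] [Module k V]
    (T : Type) [CommGroup T] (l : T → V →ₗ[k] V) (B : T → V →ₗ[k] V →ₗ[k] V)
    (hsym : ∀ t x y, B t x y = B t y x) (h1 : ∀ x, l 1 x = x)
    (hl : ∀ s t x, l (s * t) x = l s (l t x))
    (h2 : ∀ s t x, B (s * t) x x = l s (B t x x) + B s (l t x) (l t x))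
    (h3 : ∀ s t x, B s (l t x) (B t x x) = 0)
    (h4 : ∀ s t x, B s (B t x x) (B t x x) = 0)
    (E : (T → V) →ₗ[k] V) (E1 : ∀ (A : V →ₗ[k] V) (f : T → V), E (fun t => A (f t)) = A (E f))
    (E2 : ∀ v, E (fun _ => v) = v)
    (E3 : ∀ x y s, E (fun t => l (t * s)⁻¹ (B (t * s) x y)) = E (fun t => l t⁻¹ (B t x y)))
    (E4 : ∀ x y, E (fun t => l t (B t⁻¹ x y)) = E (fun t => l t⁻¹ (B t x y))) :
    ∃ M : V →ₗ[k] V →ₗ[k] V, (∀ x y, M x y = M y x) ∧ (∀ x, M x (M x x) = 0) ∧
      (∀ x, M (M x x) (M x x) = 0) ∧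
      ∀ s x, (l s x + B s x x) + M (l s x + B s x x) (l s x + B s x x) = l s (x + M x x) := by
  let M : V →ₗ[k] V →ₗ[k] V := LinearMap.mk₂ k (fun x y => E (fun t => l t⁻¹ (B t x y)))
    (by intro x x' y; rw [← map_add]; congr 1; funext t; simp)
    (by intro c x y; rw [← map_smul]; congr 1; funext t; simp)
    (by intro x y y'; rw [← map_add]; congr 1; funext t; simp)
    (by intro c x y; rw [← map_smul]; congr 1; funext t; simp)
  have hM : ∀ x y, M x y = E (fun t => l t⁻¹ (B t x y)) := fun x y => rfl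
  clear_value M
  have E0 : E (fun _ => (0 : V)) = 0 := E2 0
  have Eadd : ∀ f g : T → V, E (fun t => f t + g t) = E f + E g := fun f g => map_add E f g
  have Esub : ∀ f g : T → V, E (fun t => f t - g t) = E f - E g := fun f g => map_sub E f g
  have Msym : ∀ x y, M x y = M y x := by
    intro x y
    rw [hM, hM]
    congr 1
    funext t
    rw [hsym]
  have hA : ∀ s x, M (l s x) (l s x) = l s (M x x) - B s x x := by
    intro s x
    rw [hM, hM]
    have e : (fun t => l t⁻¹ (B t (l s x) (l s x))) =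
        fun t => l s (l (t * s)⁻¹ (B (t * s) x x)) - B s x x := by
      funext t
      have a1 := h2 t s x
      have a2 : B t (l s x) (l s x) = B (t * s) x x - l t (B s x x) := by rw [a1]; abel
      have a3 : t⁻¹ * t = 1 := by group
      have a4 : s * (t * s)⁻¹ = t⁻¹ := by group
      rw [a2, map_sub, ← hl, ← hl, a3, a4, h1]
    rw [e, Esub, E1, E3, E2]
  have hC : ∀ s x, M (l s x) (B s x x) = 0 := by
    intro s x
    rw [hM]
    have e : (fun t => l t⁻¹ (B t (l s x) (B s x x))) = fun _ => (0 : V) := by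
      funext t
      rw [h3, map_zero]
    rw [e, E0]
  have hD : ∀ s x, M (B s x x) (B s x x) = 0 := by
    intro s x
    rw [hM]
    have e : (fun t => l t⁻¹ (B t (B s x x) (B s x x))) = fun _ => (0 : V) := by
      funext t
      rw [h4, map_zero]
    rw [e, E0]
  have B1 : ∀ x, B 1 x x = 0 := by
    intro x
    have := h2 1 1 x
    simp only [one_mul, h1] at this
    simpa using this
  have hN : ∀ s x, B s (l s⁻¹ x) (l s⁻¹ x) = - l s (B s⁻¹ x x) := by
    intro s x
    have := h2 s s⁻¹ x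
    rw [mul_inv_cancel, B1] at this
    exact eq_neg_of_add_eq_zero_right this.symm
  have hMN : ∀ s x, M x (l s (B s⁻¹ x x)) = 0 := by
    intro s x
    have := hC s (l s⁻¹ x)
    rw [← hl, mul_inv_cancel, h1, hN, map_neg, neg_eq_zero] at this
    exact this
  have hE4 : ∀ x y z, E (fun s => M z (l s (B s⁻¹ x y))) = M z (M x y) := by
    intro x y z
    rw [hM x y, ← E4]
    exact E1 (M z) (fun s => l s (B s⁻¹ x y))
  have hxMxx : ∀ x, M x (M x x) = 0 := by
    intro x
    rw [← hE4 x x x]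
    have e : (fun s => M x (l s (B s⁻¹ x x))) = fun _ => (0 : V) := funext fun s => hMN s x
    rw [e, E0]
  have polar : ∀ s x y, M y (l s (B s⁻¹ x x)) +
      (M x (l s (B s⁻¹ x y)) + M x (l s (B s⁻¹ x y))) = 0 := by
    intro s x y
    have p1 := hMN s (x + y)
    have p2 := hMN s (x - y)
    have p3 := hMN s y
    simp only [map_add, map_sub, LinearMap.add_apply, LinearMap.sub_apply] at p1 p2
    rw [hsym s⁻¹ y x] at p1 p2
    have h : (2 : k) • (M y (l s (B s⁻¹ x x)) +
      (M x (l s (B s⁻¹ x y)) + M x (l s (B s⁻¹ x y)))) = 0 := by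
      linear_combination (norm := module) p1 - p2 - (2 : k) • p3
    rcases smul_eq_zero.mp h with h | h
    · exact absurd h two_ne_zero
    · exact h
  have hMM : ∀ x, M (M x x) (M x x) = 0 := by
    intro x
    have e : (fun s => M (M x x) (l s (B s⁻¹ x x)) +
      (M x (l s (B s⁻¹ x (M x x))) + M x (l s (B s⁻¹ x (M x x))))) = fun _ => (0 : V) :=
      funext fun s => polar s x (M x x)
    have h := congrArg E e
    rw [E0, Eadd, Eadd, hE4, hE4, hxMxx x, map_zero, add_zero, add_zero] at h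
    exact h
  refine ⟨M, Msym, hxMxx, hMM, ?_⟩
  intro s x
  simp only [map_add, LinearMap.add_apply]
  rw [hA, hC, hD, Msym (B s x x) (l s x), hC]
  abel

end Pool.Agent.L5helper13.TQ
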